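import Mathlib

namespace Pool.Agent.H.MP_06b617_an

open Filter Topology Set
open scoped ENNReal

section
variable {X : Type*} [NormedAddCommGroup X] [NormedSpace ℝ X] [PartialOrder X]
  [IsOrderedAddMonoid X] [PosSMulMono ℝ X]

lemma lub_add {a b : ℕ → X} (ha : Monotone a) (hb : Monotone b) {s t : X}
    (hs : IsLUB (range a) s) (ht : IsLUB (range b) t) :
    IsLUB (range fun n => a n + b n) (s + t) := by
  constructor
  · rintro _ ⟨n, rfl⟩
    exact add_le_add (hs.1 ⟨n, rfl⟩) (ht.1 ⟨n, rfl⟩)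
  · intro u hu
    have h1 : ∀ m, s ≤ u - b m := by
      intro m
      apply hs.2
      rintro _ ⟨n, rfl⟩
      rw [le_sub_iff_add_le]
      exact (add_le_add (ha (le_max_left n m)) (hb (le_max_right n m))).trans (hu ⟨max n m, rfl⟩)
    have h2 : t ≤ u - s := by
      apply ht.2
      rintro _ ⟨m, rfl⟩
      have := h1 m
      rw [le_sub_iff_add_le] at this ⊢
      rwa [add_comm]
    rw [le_sub_iff_add_le, add_comm] at h2
    exact h2

lemma lub_smul {a : ℕ → X} {s : X} (hs : IsLUB (range a) s) {r : ℝ} (hr : 0 ≤ r) :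
    IsLUB (range fun n => r • a n) (r • s) := by
  rcases hr.eq_or_lt with rfl | hr'
  · simp
  constructor
  · rintro _ ⟨n, rfl⟩
    exact smul_le_smul_of_nonneg_left (hs.1 ⟨n, rfl⟩) hr
  · intro u hu
    have : s ≤ r⁻¹ • u := by
      apply hs.2
      rintro _ ⟨n, rfl⟩
      have := smul_le_smul_of_nonneg_left (hu ⟨n, rfl⟩) (inv_nonneg.2 hr)
      rwa [smul_smul, inv_mul_cancel₀ hr'.ne', one_smul] at this
    have := smul_le_smul_of_nonneg_left this hr
    rwa [smul_smul, mul_inv_cancel₀ hr'.ne', one_smul] at this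

end

theorem normal {X : Type*} [NormedAddCommGroup X] [NormedSpace ℝ X] [CompleteSpace X]
    [PartialOrder X] [IsOrderedAddMonoid X] [PosSMulMono ℝ X]
    (hclosed : IsClosed {x : X | 0 ≤ x})
    (hS : ∀ x : ℕ → X, Monotone x → BddAbove (range x) → ∃ s, IsLUB (range x) s) :
    ∃ c : ℝ, 0 < c ∧ ∀ x y : X, 0 ≤ x → x ≤ y → ‖x‖ ≤ c * ‖y‖ := by
  by_contra hcon
  push Not at hcon
  have hex : ∀ n : ℕ, ∃ x y : X, 0 ≤ x ∧ x ≤ y ∧ ‖y‖ ≤ (1 / 2) ^ n ∧ (n : ℝ) < ‖x‖ := by
    intro n
    obtain ⟨x, y, h0, h1, h2⟩ := hcon ((n + 1) * 2 ^ n) (by positivity)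
    have hy : y ≠ 0 := by
      rintro rfl
      have : x = 0 := le_antisymm h1 h0
      simp [this] at h2
    have hy' : 0 < ‖y‖ := norm_pos_iff.2 hy
    have hr : (0 : ℝ) < ((1 / 2) ^ n / ‖y‖) := by positivity
    refine ⟨((1 / 2 : ℝ) ^ n / ‖y‖) • x, ((1 / 2 : ℝ) ^ n / ‖y‖) • y, ?_,
      smul_le_smul_of_nonneg_left h1 hr.le, ?_, ?_⟩
    · simpa using smul_le_smul_of_nonneg_left h0 hr.le
    · rw [norm_smul, Real.norm_of_nonneg hr.le, div_mul_cancel₀ _ hy'.ne']
    · rw [norm_smul, Real.norm_of_nonneg hr.le]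
      have h3 := mul_lt_mul_of_pos_left h2 hr
      have h4 : ((1 / 2 : ℝ) ^ n / ‖y‖) * ((n + 1) * 2 ^ n * ‖y‖) = n + 1 := by
        rw [one_div, inv_pow]; field_simp
      linarith
  choose x y hx hxy hy hxn using hex
  have hsum : Summable y :=
    Summable.of_norm_bounded (summable_geometric_of_lt_one (by norm_num) (by norm_num)) hy
  have hle : ∀ {a b : ℕ → X} {s t : X}, Tendsto a atTop (𝓝 s) → Tendsto b atTop (𝓝 t) →
      (∀ᶠ n in atTop, a n ≤ b n) → s ≤ t := by
    intro a b s t ha hb h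
    rw [← sub_nonneg]
    exact hclosed.mem_of_tendsto (hb.sub ha) (h.mono fun n hn => sub_nonneg.2 hn)
  have hyb : ∀ N, ∑ n ∈ Finset.range N, y n ≤ ∑' n, y n := by
    intro N
    refine hle tendsto_const_nhds hsum.hasSum.tendsto_sum_nat ?_
    filter_upwards [eventually_ge_atTop N] with M hM
    exact Finset.sum_le_sum_of_subset_of_nonneg (Finset.range_mono hM)
      fun i _ _ => (hx i).trans (hxy i)
  let P : (ℕ → ℝ) → ℕ → X := fun l N => ∑ n ∈ Finset.range N, l n • x n
  have hsm : ∀ (r : ℝ) n, 0 ≤ r → 0 ≤ r • x n := fun r n hr => by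
    simpa using smul_le_smul_of_nonneg_left (hx n) hr
  have hPm : ∀ l : ℕ → ℝ, (∀ n, 0 ≤ l n) → Monotone (P l) := fun l hl N M h =>
    Finset.sum_le_sum_of_subset_of_nonneg (Finset.range_mono h) fun i _ _ => hsm _ _ (hl i)
  have hPs : ∀ l : ℕ → ℝ, ∃ s : X, (∀ n, 0 ≤ l n) → (∃ C, ∀ n, l n ≤ C) →
      IsLUB (range (P l)) s := by
    intro l
    by_cases h : (∀ n, 0 ≤ l n) ∧ ∃ C, ∀ n, l n ≤ C
    · obtain ⟨h0, C, hC⟩ := h
      obtain ⟨s, hs⟩ := hS (P l) (hPm l h0) ⟨C • ∑' n, y n, by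
        rintro _ ⟨N, rfl⟩
        refine le_trans ?_ (smul_le_smul_of_nonneg_left (hyb N) ((h0 0).trans (hC 0)))
        rw [Finset.smul_sum]
        refine Finset.sum_le_sum fun i _ => ?_
        refine le_trans ?_ (smul_le_smul_of_nonneg_left (hxy i) ((h0 0).trans (hC 0)))
        rw [← sub_nonneg, ← sub_smul]
        exact hsm _ _ (sub_nonneg.2 (hC i))⟩
      exact ⟨s, fun _ _ => hs⟩
    · exact ⟨0, fun h1 h2 => absurd ⟨h1, h2⟩ h⟩
  choose S hS' using hPs
  let G : (ℕ → ℝ) → Prop := fun l => (∀ n, 0 ≤ l n) ∧ ∃ C, ∀ n, l n ≤ C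
  have Gadd : ∀ l m, G l → G m → G (l + m) := by
    rintro l m ⟨h1, C, hC⟩ ⟨h2, D, hD⟩
    exact ⟨fun n => add_nonneg (h1 n) (h2 n), C + D, fun n => add_le_add (hC n) (hD n)⟩
  have Gsm : ∀ (r : ℝ) l, 0 ≤ r → G l → G (r • l) := by
    rintro r l hr ⟨h1, C, hC⟩
    exact ⟨fun n => mul_nonneg hr (h1 n), r * C, fun n => mul_le_mul_of_nonneg_left (hC n) hr⟩
  have Sadd : ∀ l m, G l → G m → S (l + m) = S l + S m := by
    intro l m hl hm
    refine (hS' _ (Gadd l m hl hm).1 (Gadd l m hl hm).2).unique ?_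
    have := lub_add (hPm l hl.1) (hPm m hm.1) (hS' l hl.1 hl.2) (hS' m hm.1 hm.2)
    convert this using 2
    funext N
    simp [P, add_smul, Finset.sum_add_distrib]
  have Ssm : ∀ (r : ℝ) l, 0 ≤ r → G l → S (r • l) = r • S l := by
    intro r l hr hl
    refine (hS' _ (Gsm r l hr hl).1 (Gsm r l hr hl).2).unique ?_
    have := lub_smul (hS' l hl.1 hl.2) hr
    convert this using 2
    funext N
    simp [P, Finset.smul_sum, smul_smul]
  have Spos : ∀ l, G l → 0 ≤ S l := fun l hl => by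
    simpa [P] using (hS' l hl.1 hl.2).1 ⟨0, rfl⟩
  let E := BoundedContinuousFunction ℕ ℝ
  have hneg : ∀ (f : E) n, (-f) n = -f n := fun _ _ => rfl
  have hadd : ∀ (f g : E) n, (f + g) n = f n + g n := fun _ _ _ => rfl
  have hsmul : ∀ (r : ℝ) (f : E) n, (r • f) n = r * f n := fun _ _ _ => rfl
  have Gp : ∀ f : E, G (fun n => max (f n) 0) := fun f =>
    ⟨fun n => le_max_right _ _, ‖f‖, fun n =>
      max_le ((le_abs_self _).trans (f.norm_coe_le_norm n)) (norm_nonneg _)⟩
  let T0 : E → X := fun f => S (fun n => max (f n) 0) - S (fun n => max ((-f) n) 0)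
  have key : ∀ (f : E) l m, G l → G m → (∀ n, f n = l n - m n) → T0 f = S l - S m := by
    intro f l m hl hm h
    have e : (fun n => max (f n) 0) + m = l + fun n => max ((-f) n) 0 := by
      funext n
      simp only [Pi.add_apply, hneg, h n]
      rcases le_total (l n) (m n) with h | h
      · rw [max_eq_right (by linarith), max_eq_left (by linarith)]; ring
      · rw [max_eq_left (by linarith), max_eq_right (by linarith)]; ring
    have := congrArg S e
    rw [Sadd _ _ (Gp f) hm, Sadd _ _ hl (Gp (-f))] at this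
    rw [sub_eq_sub_iff_add_eq_add]
    exact this
  have dec : ∀ (f : E) n, f n = max (f n) 0 - max ((-f) n) 0 := by
    intro f n
    simp only [hneg]
    rcases le_total (f n) 0 with h | h
    · rw [max_eq_right h, max_eq_left (by linarith)]; ring
    · rw [max_eq_left h, max_eq_right (by linarith)]; ring
  let T : E →ₗ[ℝ] X :=
    { toFun := T0
      map_add' := fun f g => by
        rw [key (f + g) _ _ (Gadd _ _ (Gp f) (Gp g)) (Gadd _ _ (Gp (-f)) (Gp (-g))) (fun n => by
          simp only [hadd, Pi.add_apply]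
          linarith [dec f n, dec g n]), Sadd _ _ (Gp f) (Gp g), Sadd _ _ (Gp (-f)) (Gp (-g))]
        simp only [T0]; abel
      map_smul' := fun r f => by
        rcases le_total 0 r with hr | hr
        · rw [key (r • f) _ _ (Gsm r _ hr (Gp f)) (Gsm r _ hr (Gp (-f))) (fun n => by
            simp only [hsmul, Pi.smul_apply, smul_eq_mul]
            rw [← mul_sub, ← dec f n]), Ssm _ _ hr (Gp f), Ssm _ _ hr (Gp (-f))]
          simp only [T0, RingHom.id_apply, smul_sub]
        · have hr' : 0 ≤ -r := by linarith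
          rw [key (r • f) _ _ (Gsm (-r) _ hr' (Gp (-f))) (Gsm (-r) _ hr' (Gp f)) (fun n => by
            simp only [hsmul, Pi.smul_apply, smul_eq_mul]
            have := dec f n
            linear_combination r * this), Ssm _ _ hr' (Gp f), Ssm _ _ hr' (Gp (-f))]
          simp only [T0, RingHom.id_apply, smul_sub, neg_smul]; abel }
  have G1 : G 1 := ⟨fun _ => zero_le_one, 1, fun _ => le_rfl⟩
  have Tle : ∀ f : E, T f ≤ ‖f‖ • S 1 := by
    intro f
    have hG : G (fun n => ‖f‖ - f n) := ⟨fun n =>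
      sub_nonneg.2 ((le_abs_self _).trans (f.norm_coe_le_norm n)), 2 * ‖f‖, fun n => by
        have := (neg_le_abs _).trans (f.norm_coe_le_norm n)
        linarith⟩
    have : T f = _ := key f _ _ (Gsm ‖f‖ 1 (norm_nonneg _) G1) hG (fun n => by simp)
    rw [this, Ssm _ _ (norm_nonneg _) G1]
    exact sub_le_self _ (Spos _ hG)
  have Tc : Continuous T := by
    apply LinearMap.continuous_of_seq_closed_graph
    intro u f z hu hz
    have h0 : Tendsto (fun n => ‖u n - f‖ • S 1) atTop (𝓝 0) := by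
      simpa using (tendsto_iff_norm_sub_tendsto_zero.1 hu).smul_const (S 1)
    have h1 : z - T f ≤ 0 := hle (hz.sub_const (T f)) h0 (Eventually.of_forall fun n => by
      simpa using Tle (u n - f))
    have h2 : T f - z ≤ 0 := hle (hz.const_sub (T f)) h0 (Eventually.of_forall fun n => by
      simpa [norm_sub_rev] using Tle (f - u n))
    exact le_antisymm (sub_nonpos.1 h1) (sub_nonpos.1 h2)
  obtain ⟨C, hC, hT⟩ := SemilinearMapClass.bound_of_continuous T Tc
  obtain ⟨n, hn⟩ := exists_nat_gt C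
  let e : E := BoundedContinuousFunction.ofNormedAddCommGroupDiscrete
    (Pi.single n (1 : ℝ)) 1 (fun i => by
      by_cases h : i = n
      · simp [h]
      · simp [h])
  have he : ‖e‖ ≤ 1 := BoundedContinuousFunction.norm_ofNormedAddCommGroup_le _ zero_le_one _
  have hG : G (Pi.single n (1 : ℝ)) := ⟨fun i => by by_cases h : i = n <;> simp [h], 1,
    fun i => by by_cases h : i = n <;> simp [h]⟩
  have hT0 : T e = x n := by
    have h0 : S 0 = 0 := by simpa using Ssm 0 1 le_rfl G1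
    have : T e = _ := key e _ 0 hG (by simpa using Gsm 0 1 le_rfl G1) (fun i => by rw [Pi.zero_apply, sub_zero]; rfl)
    rw [this, h0, sub_zero]
    refine (hS' _ hG.1 hG.2).unique ⟨?_, fun u hu => ?_⟩
    · rintro _ ⟨N, rfl⟩
      simp only [P, Pi.single_apply, ite_smul, one_smul, zero_smul, Finset.sum_ite_eq']
      split_ifs
      · exact le_rfl
      · exact hx n
    · simpa [P, Pi.single_apply] using hu ⟨n + 1, rfl⟩
  have := hT e
  rw [hT0] at this
  nlinarith [hxn n, norm_nonneg e]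

end Pool.Agent.H.MP_06b617_an
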